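/- MP_a93a41_nt, part C0: a subspace of dimension `m` is determined by `m` coordinates. -/
import Pool.Agent.Helper16.DIL.Spec

namespace Pool.Agent.Helper33.DIL.C0

open Finset Pool.Agent.Helper16.DIL

theorem aux (K : ℕ) : ∀ (d : ℕ) (U : Submodule ℚ (Fin K → ℚ)), Module.finrank ℚ U ≤ d →
    ∃ I : Finset (Fin K), I.card ≤ d ∧ ∀ u ∈ U, (∀ i ∈ I, u i = 0) → u = 0 := by
  intro d
  induction d with
  | zero =>
    intro U hU
    refine ⟨∅, le_refl _, ?_⟩
    intro u hu _
    have h0 : U = ⊥ := Submodule.finrank_eq_zero.mp (Nat.le_zero.mp hU)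
    rw [h0] at hu
    exact (Submodule.mem_bot ℚ).mp hu
  | succ d ih =>
    intro U hU
    by_cases hb : U = ⊥
    · refine ⟨∅, by simp, ?_⟩
      intro u hu _
      rw [hb] at hu
      exact (Submodule.mem_bot ℚ).mp hu
    · obtain ⟨u, hu, hu0⟩ := (Submodule.ne_bot_iff U).mp hb
      obtain ⟨i, hi⟩ := Function.ne_iff.mp hu0
      set U' : Submodule ℚ (Fin K → ℚ) :=
        U ⊓ LinearMap.ker (LinearMap.proj i : (Fin K → ℚ) →ₗ[ℚ] ℚ) with hU'
      have hlt : U' < U := by
        refine lt_of_le_of_ne inf_le_left ?_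
        intro h
        have h1 : u ∈ U' := h ▸ hu
        have h2 := (Submodule.mem_inf.mp h1).2
        rw [LinearMap.mem_ker] at h2
        exact hi h2
      have hf : Module.finrank ℚ U' ≤ d := by
        have := Submodule.finrank_lt_finrank_of_lt hlt
        omega
      obtain ⟨I, hI, hI2⟩ := ih U' hf
      refine ⟨insert i I, ?_, ?_⟩
      · exact (Finset.card_insert_le i I).trans (by omega)
      · intro v hv h
        refine hI2 v ?_ (fun j hj => h j (Finset.mem_insert_of_mem hj))
        rw [hU', Submodule.mem_inf, LinearMap.mem_ker]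
        exact ⟨hv, h i (Finset.mem_insert_self i I)⟩

theorem main : S_C0 := by
  intro K U
  obtain ⟨I, hI, hI2⟩ := aux K (Module.finrank ℚ U) U le_rfl
  refine ⟨I, le_antisymm hI ?_, hI2⟩
  let L : U →ₗ[ℚ] (I → ℚ) :=
    (LinearMap.funLeft ℚ ℚ (fun i : I => (i : Fin K))).comp U.subtype
  have hL : Function.Injective L := by
    rw [← LinearMap.ker_eq_bot, LinearMap.ker_eq_bot']
    intro u hu
    apply Subtype.ext
    refine hI2 u u.2 ?_
    intro i hi
    exact congrFun hu ⟨i, hi⟩
  have h := LinearMap.finrank_le_finrank_of_injective hL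
  rw [Module.finrank_fintype_fun_eq_card, Fintype.card_coe] at h
  exact h

end Pool.Agent.Helper33.DIL.C0
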